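import Mathlib
import Pool.Agent.Helper19.ZS.Defs

set_option autoImplicit false

open Pool.Agent.Helper19.ZS in
/-- **Boundary zero sets of smooth analytic classes in Lipschitz domains do not depend on the
smoothness.** For every bounded Lipschitz domain `G` and all integers `γ, γ' ≥ 1`, the classes
`C^γ(G)` and `C^γ'(G)` have the same zero sets on the boundary of `G`. The proof is the one
described in `ClosureZeroSets`. -/
theorem Pool.Agent.Results.MP_8a09e6_an.BoundaryZeroSets.result :
    ∀ G : Set ℂ, IsBoundedLipschitzDomain G → ∀ γ γ' : ℕ, 1 ≤ γ → 1 ≤ γ' →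
      zeroSets G (frontier G) γ = zeroSets G (frontier G) γ' := by
  intro G hG γ γ' hγ hγ'
  exact (zeroSets_subset hG frontier_subset_closure hγ hγ').antisymm
    (zeroSets_subset hG frontier_subset_closure hγ' hγ)
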