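import Mathlib
import Pool.Agent.Helper19.ZS.Defs

set_option autoImplicit false

open Pool.Agent.Helper19.ZS in
/-- **Zero sets of smooth analytic classes in Lipschitz domains do not depend on the smoothness.**
For every bounded Lipschitz domain `G` and all integers `γ, γ' ≥ 1`, the classes `C^γ(G)` and
`C^γ'(G)` have the same zero sets in `closure G`.

Idea of the proof: a function `f` of `C^γ(G)`, `γ ≥ 1`, is Lipschitz on `closure G`; after
multiplication by a small constant it has an extension `g` to the plane with a small Lipschitz
constant `ε`. Let `h` be the Cauchy transform of `(∂̄g / g)` restricted to the outer collar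
`{z ∉ G : dist (z, G) < |g z|}`. Then `F = g exp (-h)` is holomorphic in the open set
`{dist (z, G) < |g z|}`, which contains the closed domain without the zeros of `f`, and
`|h| ≤ (1 + log (1 / |g|)) / 2`. Hence a high power of `F`, extended by `0`, has the same zeros
as `f` and belongs to `C^γ'(G)` by the Cauchy estimates. -/
theorem Pool.Agent.Results.MP_8a09e6_an.ClosureZeroSets.result :
    ∀ G : Set ℂ, IsBoundedLipschitzDomain G → ∀ γ γ' : ℕ, 1 ≤ γ → 1 ≤ γ' →
      zeroSets G (closure G) γ = zeroSets G (closure G) γ' := by
  intro G hG γ γ' hγ hγ'
  exact (zeroSets_subset hG subset_rfl hγ hγ').antisymm (zeroSets_subset hG subset_rfl hγ' hγ)
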